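import Pool.Agent.Helper55.GC.Stm2

/-! Package Q4 (`S_Count`) of the Gompf project: many good lattices. -/

set_option autoImplicit false

open Finset

namespace Pool.Agent.Helper13.GC

open Pool.Agent.Helper55.GC

theorem exists_root (p : ℕ) (hp : 5 * 10 ^ 19 ≤ p) :
    ∃ s : ℕ, 1901 ≤ s ∧ (s - 1) ^ 6 ≤ p ∧ p < s ^ 6 := by
  have hex : ∃ s : ℕ, p < s ^ 6 := ⟨p + 1, by
    calc p < p + 1 := Nat.lt_succ_self p
      _ ≤ (p + 1) ^ 6 := Nat.le_self_pow (by norm_num) _⟩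
  classical
  refine ⟨Nat.find hex, ?_, ?_, Nat.find_spec hex⟩
  · by_contra h
    push Not at h
    have h1 : (Nat.find hex) ^ 6 ≤ 1900 ^ 6 := Nat.pow_le_pow_left (by omega) 6
    have h2 := Nat.find_spec hex
    norm_num at h1 hp
    omega
  · by_contra h
    push Not at h
    have h3 : Nat.find hex ≠ 0 := by
      intro h0
      have h2 := Nat.find_spec hex
      rw [h0] at h2
      simp at h2
    have := Nat.find_min' hex h
    omega

/-- the candidates -/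
noncomputable def pairs (s : ℤ) : Finset (ℤ × ℤ) :=
  (Icc (-(2 * s ^ 2)) (2 * s ^ 2) ×ˢ Icc (-(2 * s ^ 3)) (2 * s ^ 3)) ∪
  ((Icc (-(2 * s ^ 3)) (2 * s ^ 3) ×ˢ Icc (-(2 * s ^ 2)) (2 * s ^ 2)) ∪
  (Icc (-(2 * s ^ 2)) (2 * s ^ 2) ×ˢ Icc (-(2 * s ^ 3)) (2 * s ^ 3)).image
    (fun x => (x.1 + x.2, x.2)))

theorem card_pairs (s : ℕ) :
    (pairs (s : ℤ)).card ≤ 3 * ((4 * s ^ 2 + 1) * (4 * s ^ 3 + 1)) := by
  unfold pairs
  have h1 : (Icc (-(2 * (s : ℤ) ^ 2)) (2 * (s : ℤ) ^ 2)).card = 4 * s ^ 2 + 1 := by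
    rw [Int.card_Icc]
    have : (2 * (s : ℤ) ^ 2 + 1 - -(2 * (s : ℤ) ^ 2)) = ((4 * s ^ 2 + 1 : ℕ) : ℤ) := by
      push_cast; ring
    rw [this, Int.toNat_natCast]
  have h2 : (Icc (-(2 * (s : ℤ) ^ 3)) (2 * (s : ℤ) ^ 3)).card = 4 * s ^ 3 + 1 := by
    rw [Int.card_Icc]
    have : (2 * (s : ℤ) ^ 3 + 1 - -(2 * (s : ℤ) ^ 3)) = ((4 * s ^ 3 + 1 : ℕ) : ℤ) := by
      push_cast; ring
    rw [this, Int.toNat_natCast]
  refine (card_union_le _ _).trans ?_
  refine (Nat.add_le_add_left ((card_union_le _ _).trans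
    (Nat.add_le_add_left card_image_le _)) _).trans ?_
  rw [card_product, card_product, h1, h2]
  nlinarith

theorem small (s k l p : ℤ) (hp : p < s ^ 6) (hs : 1901 ≤ s) (h0 : k * l * (k - l) ≠ 0)
    (h : 10 * |k * l * (k - l)| < 26 * p) :
    |k| ≤ 2 * s ^ 3 ∧ |l| ≤ 2 * s ^ 3 ∧
      (|k| ≤ 2 * s ^ 2 ∨ |l| ≤ 2 * s ^ 2 ∨ |k - l| ≤ 2 * s ^ 2) := by
  have hk : k ≠ 0 := by rintro rfl; simp at h0
  have hl : l ≠ 0 := by rintro rfl; simp at h0
  have hkl : k - l ≠ 0 := by intro h1; rw [h1] at h0; simp at h0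
  have k1 : 1 ≤ |k| := Int.one_le_abs hk
  have l1 : 1 ≤ |l| := Int.one_le_abs hl
  have m1 : 1 ≤ |k - l| := Int.one_le_abs hkl
  rw [abs_mul, abs_mul] at h
  have t1 : |l| ≤ |k| + |k - l| := by
    have := abs_sub k (k - l)
    rwa [sub_sub_cancel] at this
  have t2 : |k| ≤ |l| + |k - l| := by
    have := abs_add_le l (k - l)
    rwa [add_sub_cancel] at this
  generalize |k| = a at *
  generalize |l| = b at *
  generalize |k - l| = c at *
  have hs2 : 0 < s ^ 2 := by positivity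
  have hs3 : 0 < s ^ 3 := by positivity
  have e6 : s ^ 6 = s ^ 3 * s ^ 3 := by ring
  have e6' : s ^ 6 = s ^ 2 * s ^ 2 * s ^ 2 := by ring
  refine ⟨?_, ?_, ?_⟩
  · by_contra h1
    push Not at h1
    have h2 : 2 * s ^ 3 ≤ b * c := by nlinarith
    have h3 : (2 * s ^ 3) * (2 * s ^ 3) ≤ a * (b * c) :=
      mul_le_mul h1.le h2 (by positivity) (by linarith)
    nlinarith
  · by_contra h1
    push Not at h1
    have h2 : 2 * s ^ 3 ≤ a * c := by nlinarith
    have h3 : (2 * s ^ 3) * (2 * s ^ 3) ≤ b * (a * c) :=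
      mul_le_mul h1.le h2 (by positivity) (by linarith)
    nlinarith
  · by_contra h1
    push Not at h1
    obtain ⟨h1, h2, h3⟩ := h1
    have h4 : (2 * s ^ 2) * (2 * s ^ 2) ≤ a * b :=
      mul_le_mul h1.le h2.le (by positivity) (by linarith)
    have h5 : (2 * s ^ 2) * (2 * s ^ 2) * (2 * s ^ 2) ≤ a * b * c :=
      mul_le_mul h4 h3.le (by positivity) (by positivity)
    nlinarith

theorem mem_pairs (s k l : ℤ) (hk : |k| ≤ 2 * s ^ 3) (hl : |l| ≤ 2 * s ^ 3)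
    (h : |k| ≤ 2 * s ^ 2 ∨ |l| ≤ 2 * s ^ 2 ∨ |k - l| ≤ 2 * s ^ 2) : (k, l) ∈ pairs s := by
  unfold pairs
  rw [mem_union, mem_union, mem_image]
  have hk' := abs_le.1 hk
  have hl' := abs_le.1 hl
  rcases h with h | h | h
  · left
    have h' := abs_le.1 h
    rw [mem_product, mem_Icc, mem_Icc]
    exact ⟨h', hl'⟩
  · right; left
    have h' := abs_le.1 h
    rw [mem_product, mem_Icc, mem_Icc]
    exact ⟨hk', h'⟩
  · right; right
    have h' := abs_le.1 h
    refine ⟨(k - l, l), ?_, by simp⟩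
    rw [mem_product, mem_Icc, mem_Icc]
    exact ⟨h', hl'⟩

theorem num (a : ℕ) (ha : 1900 ≤ a) :
    3 * (3 * ((4 * (a + 1) ^ 2 + 1) * (4 * (a + 1) ^ 3 + 1)) + 2) ≤ 2 * a ^ 6 := by
  have h2 : 1900 * a ≤ a ^ 2 := by rw [pow_two]; exact Nat.mul_le_mul_right _ ha
  have h3 : 1900 * a ^ 2 ≤ a ^ 3 := by
    rw [show a ^ 3 = a * a ^ 2 by ring]; exact Nat.mul_le_mul_right _ ha
  have e1 : 4 * (a + 1) ^ 2 + 1 ≤ 5 * a ^ 2 := by
    have : 4 * (a + 1) ^ 2 + 1 = 4 * a ^ 2 + 8 * a + 5 := by ring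
    rw [this]
    generalize a ^ 2 = b at *
    omega
  have e2 : 4 * (a + 1) ^ 3 + 1 ≤ 5 * a ^ 3 := by
    have : 4 * (a + 1) ^ 3 + 1 = 4 * a ^ 3 + 12 * a ^ 2 + 12 * a + 5 := by ring
    rw [this]
    generalize a ^ 3 = c at *
    generalize a ^ 2 = b at *
    omega
  have e3 := Nat.mul_le_mul e1 e2
  have e4 : 5 * a ^ 2 * (5 * a ^ 3) = 25 * a ^ 5 := by ring
  have e6 : 3800 * a ^ 5 ≤ 2 * a ^ 6 := by
    have : 2 * a ^ 6 = (2 * a) * a ^ 5 := by ring
    rw [this]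
    exact Nat.mul_le_mul_right _ (by omega)
  have e7 : 1 ≤ a ^ 5 := Nat.one_le_pow _ _ (by omega)
  rw [e4] at e3
  generalize (4 * (a + 1) ^ 2 + 1) * (4 * (a + 1) ^ 3 + 1) = v at *
  generalize a ^ 5 = w at *
  generalize a ^ 6 = w' at *
  omega

open Classical in
theorem count_nat : ∀ p : ℕ, p.Prime → F1 ≤ (p : ℤ) →
    p ≤ 3 * ((range p).filter
      (fun c : ℕ => GoodLat (p : ℤ) (c : ℤ) ∧ ¬ (p : ℤ) ∣ (c : ℤ) * ((c : ℤ) - 1))).card := by
  intro p hp hF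
  have hF' : 5 * 10 ^ 19 ≤ p := by
    unfold F1 at hF
    exact_mod_cast hF
  obtain ⟨s, hs, hs1, hs2⟩ := exists_root p hF'
  have : Fact p.Prime := ⟨hp⟩
  set good := (range p).filter
    (fun c : ℕ => GoodLat (p : ℤ) (c : ℤ) ∧ ¬ (p : ℤ) ∣ (c : ℤ) * ((c : ℤ) - 1)) with hgood
  set g : ℤ × ℤ → ℕ := fun x => ((x.1 : ZMod p) * (x.2 : ZMod p)⁻¹).val with hg
  have hps : 2 * s ^ 3 < p := by
    refine lt_of_lt_of_le ?_ hs1
    obtain ⟨u, rfl⟩ : ∃ u, s = u + 1901 := ⟨s - 1901, by omega⟩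
    rw [show u + 1901 - 1 = u + 1900 by omega]
    have : 2 * (u + 1901) ^ 3 ≤ 4 * (u + 1900) ^ 3 := by
      ring_nf; nlinarith [Nat.zero_le u, Nat.zero_le (u ^ 2), Nat.zero_le (u ^ 3)]
    have h6 : 4 * (u + 1900) ^ 3 < (u + 1900) ^ 3 * (u + 1900) ^ 3 := by
      have h7 : 4 < (u + 1900) ^ 3 := by
        calc 4 < 1900 ^ 3 := by norm_num
          _ ≤ (u + 1900) ^ 3 := Nat.pow_le_pow_left (by omega) 3
      have h8 : 0 < (u + 1900) ^ 3 := by positivity
      nlinarith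
    calc 2 * (u + 1901) ^ 3 ≤ 4 * (u + 1900) ^ 3 := this
      _ < (u + 1900) ^ 3 * (u + 1900) ^ 3 := h6
      _ = (u + 1900) ^ 6 := by ring
  have hsub : range p ⊆ (pairs (s : ℤ)).image g ∪ ({0, 1} ∪ good) := by
    intro c hc
    rw [mem_range] at hc
    rw [mem_union, mem_union]
    by_cases h1 : GoodLat (p : ℤ) (c : ℤ)
    · right
      by_cases h2 : (p : ℤ) ∣ (c : ℤ) * ((c : ℤ) - 1)
      · left
        have hpp : Prime (p : ℤ) := Nat.prime_iff_prime_int.1 hp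
        rw [mem_insert, mem_singleton]
        rcases hpp.dvd_or_dvd h2 with h3 | h3
        · left
          exact Nat.eq_zero_of_dvd_of_lt (Int.natCast_dvd_natCast.1 h3) hc
        · rcases Nat.eq_zero_or_pos c with h4 | h4
          · exact Or.inl h4
          · right
            have h5 : (p : ℤ) ∣ ((c - 1 : ℕ) : ℤ) := by
              rw [Nat.cast_sub h4]; exact_mod_cast h3
            have h6 := Nat.eq_zero_of_dvd_of_lt (Int.natCast_dvd_natCast.1 h5) (by omega)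
            omega
      · right
        rw [hgood, mem_filter, mem_range]
        exact ⟨hc, h1, h2⟩
    · left
      unfold GoodLat at h1
      push Not at h1
      obtain ⟨k, l, hd, h0, hlt⟩ := h1
      obtain ⟨b1, b2, b3⟩ := small (s : ℤ) k l (p : ℤ) (by exact_mod_cast hs2)
        (by exact_mod_cast hs) h0 hlt
      rw [mem_image]
      refine ⟨(k, l), mem_pairs _ _ _ b1 b2 b3, ?_⟩
      have hl0 : l ≠ 0 := by rintro rfl; simp at h0
      have hlp : (l : ZMod p) ≠ 0 := by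
        intro h
        rw [ZMod.intCast_zmod_eq_zero_iff_dvd] at h
        have h3 := Int.le_of_dvd (abs_pos.2 hl0) ((dvd_abs _ _).2 h)
        have h4 : (2 * (s : ℤ) ^ 3) < p := by exact_mod_cast hps
        linarith
      have hkc : (k : ZMod p) = (c : ZMod p) * (l : ZMod p) := by
        have := (ZMod.intCast_zmod_eq_zero_iff_dvd (k - c * l) p).2 hd
        push_cast at this
        exact sub_eq_zero.1 this
      show ((k : ZMod p) * (l : ZMod p)⁻¹).val = c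
      rw [hkc, mul_assoc, mul_inv_cancel₀ hlp, mul_one, ZMod.val_cast_of_lt hc]
  have hcard := card_le_card hsub
  rw [card_range] at hcard
  have h3 : ((pairs (s : ℤ)).image g ∪ ({0, 1} ∪ good)).card ≤
      3 * ((4 * s ^ 2 + 1) * (4 * s ^ 3 + 1)) + (2 + good.card) := by
    refine (card_union_le _ _).trans (Nat.add_le_add (card_image_le.trans (card_pairs s)) ?_)
    refine (card_union_le _ _).trans (Nat.add_le_add_right ?_ _)
    exact card_le_two
  have h4 : 3 * (3 * ((4 * s ^ 2 + 1) * (4 * s ^ 3 + 1)) + 2) ≤ 2 * (s - 1) ^ 6 := by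
    have h5 := num (s - 1) (by omega)
    rwa [show s - 1 + 1 = s by omega] at h5
  generalize 3 * ((4 * s ^ 2 + 1) * (4 * s ^ 3 + 1)) = v at *
  generalize (s - 1) ^ 6 = w at *
  omega

open Classical in
theorem key (s : Finset ℕ) (P : ℤ → Prop) (t : Finset ℤ)
    (ht : t = s.image (fun a : ℕ => (a : ℤ))) :
    (s.filter (fun c : ℕ => P (c : ℤ))).card ≤ (t.filter P).card := by
  rw [ht, Finset.filter_image, Finset.card_image_of_injective _ Nat.cast_injective]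

theorem count : S_Count := by
  intro p hp hF
  refine (count_nat p hp hF).trans ?_
  refine Nat.mul_le_mul_left 3 ?_
  have h := key (range p) (fun c : ℤ => GoodLat (p : ℤ) c ∧ ¬ (p : ℤ) ∣ c * (c - 1)) _ rfl
  refine le_trans (le_of_eq ?_) (h.trans (le_of_eq ?_))
  · congr 1
    ext x
    simp only [mem_filter]
  · congr 1
    ext x
    simp only [mem_filter]
    refine and_congr_left fun _ => ?_
    simp [Finset.bind_def, eq_comm]

end Pool.Agent.Helper13.GC
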